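import Mathlib

/-!
# MP_64d5df_nt, Q2: the loneliness gap can drop under every translation

For every `n ≥ 2`, every `a ≥ 1` and every `ε > 0` there is an `n`-set `V` of positive integers with
`1/2 - ε < κ(V) < 1/2` and `κ(a + V) = 1/(n+1)`.
-/

namespace Pool.Agent.Results.MP_64d5df_nt.TranslateDrop

/-- Distance from a real number to the nearest integer. -/
noncomputable def distInt (x : ℝ) : ℝ := |x - round x|

/-- The loneliness gap `κ(V) = sup_t min_{v ∈ V} ‖t v‖`. -/
noncomputable def kappa (V : Finset ℕ) : ℝ := ⨆ t : ℝ, ⨅ v : V, distInt (t * ((v : ℕ) : ℝ))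

/-- The translate `a + V`. -/
def translate (a : ℕ) (V : Finset ℕ) : Finset ℕ := V.image (fun v => a + v)

lemma distInt_nonneg (x : ℝ) : 0 ≤ distInt x := abs_nonneg _

lemma distInt_le_half (x : ℝ) : distInt x ≤ 1 / 2 := abs_sub_round x

lemma distInt_le (x : ℝ) (m : ℤ) : distInt x ≤ |x - m| := round_le x m

lemma le_distInt {x c : ℝ} (h : ∀ m : ℤ, c ≤ |x - m|) : c ≤ distInt x := h _

lemma kappa_le {V : Finset ℕ} {c : ℝ} (h : ∀ t : ℝ, ∃ v ∈ V, distInt (t * (v : ℝ)) ≤ c) :
    kappa V ≤ c := by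
  unfold kappa
  refine ciSup_le fun t => ?_
  obtain ⟨v, hv, hvc⟩ := h t
  refine le_trans (ciInf_le ⟨0, ?_⟩ (⟨v, hv⟩ : V)) hvc
  rintro _ ⟨w, rfl⟩
  exact distInt_nonneg _

lemma le_kappa {V : Finset ℕ} (hV : V.Nonempty) {c : ℝ} (t : ℝ)
    (h : ∀ v ∈ V, c ≤ distInt (t * (v : ℝ))) : c ≤ kappa V := by
  have : Nonempty V := hV.to_subtype
  unfold kappa
  refine le_trans (le_ciInf fun v : V => h v v.2) (le_ciSup
    (f := fun t : ℝ => ⨅ v : V, distInt (t * ((v : ℕ) : ℝ))) ⟨1 / 2, ?_⟩ t)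
  rintro _ ⟨s, rfl⟩
  obtain ⟨v, hv⟩ := hV
  refine le_trans (ciInf_le ⟨0, ?_⟩ (⟨v, hv⟩ : V)) (distInt_le_half _)
  rintro _ ⟨w, rfl⟩
  exact distInt_nonneg _

/-- Two speeds of different parity are never both close to `1/2`. -/
lemma parity_bound (v w : ℕ) (hv : 0 < v) (hw : 0 < w) (hpar : (v + w) % 2 = 1) (t : ℝ) :
    distInt (t * (v : ℝ)) ≤ 1 / 2 - 1 / (2 * ((v : ℝ) + w)) ∨
      distInt (t * (w : ℝ)) ≤ 1 / 2 - 1 / (2 * ((v : ℝ) + w)) := by
  by_contra hcon
  push Not at hcon
  obtain ⟨h1, h2⟩ := hcon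
  have hvR : (0 : ℝ) < v := by exact_mod_cast hv
  have hwR : (0 : ℝ) < w := by exact_mod_cast hw
  -- find half-integers close to t*v
  have key : ∀ (x δ : ℝ), 1 / 2 - δ < distInt x → ∃ m : ℤ, |x - (m + 1 / 2)| < δ := by
    intro x δ hx
    refine ⟨⌊x⌋, ?_⟩
    have ha := distInt_le x ⌊x⌋
    have hb := distInt_le x (⌊x⌋ + 1)
    have hf0 : (⌊x⌋ : ℝ) ≤ x := Int.floor_le x
    have hf1 : x < ⌊x⌋ + 1 := Int.lt_floor_add_one x
    rw [abs_of_nonneg (by linarith)] at ha
    push_cast at hb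
    rw [abs_of_nonpos (by linarith)] at hb
    rw [abs_lt]
    constructor <;> linarith
  obtain ⟨m, hm⟩ := key _ _ h1
  obtain ⟨k, hk⟩ := key _ _ h2
  have hid : ((w : ℝ) * (2 * m + 1) - v * (2 * k + 1)) / 2 =
      v * (t * w - (k + 1 / 2)) - w * (t * v - (m + 1 / 2)) := by ring
  have hlt : |((w : ℝ) * (2 * m + 1) - v * (2 * k + 1)) / 2| < 1 / 2 := by
    rw [hid]
    calc |(v : ℝ) * (t * w - (k + 1 / 2)) - w * (t * v - (m + 1 / 2))|
        ≤ |(v : ℝ) * (t * w - (k + 1 / 2))| + |(w : ℝ) * (t * v - (m + 1 / 2))| := abs_sub _ _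
      _ = v * |t * w - (k + 1 / 2)| + w * |t * v - (m + 1 / 2)| := by
          rw [abs_mul, abs_mul, abs_of_pos hvR, abs_of_pos hwR]
      _ < v * (1 / (2 * ((v : ℝ) + w))) + w * (1 / (2 * ((v : ℝ) + w))) := by
          gcongr
      _ = 1 / 2 := by field_simp
  have hint : (((w : ℤ) * (2 * m + 1) - v * (2 * k + 1) : ℤ) : ℝ) =
      (w : ℝ) * (2 * m + 1) - v * (2 * k + 1) := by push_cast; ring
  have hlt2 : |(((w : ℤ) * (2 * m + 1) - v * (2 * k + 1) : ℤ) : ℝ)| < 1 := by
    rw [hint]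
    have := hlt
    rw [abs_div, abs_of_pos (by norm_num : (0 : ℝ) < 2)] at this
    linarith
  have hlt3 : |(w : ℤ) * (2 * m + 1) - v * (2 * k + 1)| < 1 := by exact_mod_cast hlt2
  have hz : (w : ℤ) * (2 * m + 1) - v * (2 * k + 1) = 0 := Int.abs_lt_one_iff.mp hlt3
  have hodd : ((w : ℤ) * (2 * m + 1) - v * (2 * k + 1)) % 2 = 1 := by
    have e : (w : ℤ) * (2 * m + 1) - v * (2 * k + 1) = (v + w : ℤ) + 2 * (w * m - v * k - v) := by
      ring
    rw [e]
    omega
  omega

/-- Disproof of `κ(a + V) ≥ κ(V)` in the strongest form: for every `n ≥ 2`, every `a ≥ 1` and every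
`ε > 0` the loneliness gap of some `n`-set drops from a value in `(1/2 - ε, 1/2)` to `1/(n+1)` under
translation by `a`. -/
theorem result : ∀ n : ℕ, 2 ≤ n → ∀ a : ℕ, 1 ≤ a → ∀ ε : ℝ, 0 < ε →
    ∃ V : Finset ℕ, V.card = n ∧ (∀ v ∈ V, 1 ≤ v) ∧
      1 / 2 - ε < kappa V ∧ kappa V < 1 / 2 ∧
      kappa (translate a V) = 1 / ((n : ℝ) + 1) := by
  intro n hn a ha ε hε
  obtain ⟨k, hk⟩ := exists_nat_gt (1 / ε)
  set g : ℕ := 2 * (k + 1) * a + 1 with hg
  -- b = g - a
  obtain ⟨b, hb⟩ : ∃ b : ℕ, g = a + b := ⟨g - a, by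
    have : a ≤ g := by
      rw [hg]; nlinarith
    omega⟩
  have hbpos : 0 < b := by
    have : a < g := by rw [hg]; nlinarith
    omega
  have hgpos : 0 < g := by omega
  have hgR : (0 : ℝ) < g := by exact_mod_cast hgpos
  have hinj : Function.Injective (fun j : ℕ => b + g * j) := by
    intro i j hij
    have : g * i = g * j := by simpa using hij
    exact Nat.eq_of_mul_eq_mul_left hgpos this
  refine ⟨(Finset.range n).image (fun j => b + g * j), ?_, ?_, ?_, ?_, ?_⟩
  · rw [Finset.card_image_of_injective _ hinj, Finset.card_range]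
  · intro v hv
    simp only [Finset.mem_image, Finset.mem_range] at hv
    obtain ⟨j, _, rfl⟩ := hv
    omega
  · -- lower bound
    have hne : ((Finset.range n).image (fun j => b + g * j)).Nonempty := by
      refine ⟨b + g * 0, Finset.mem_image.mpr ⟨0, Finset.mem_range.mpr (by omega), rfl⟩⟩
    have hlow : 1 / 2 - 1 / (2 * (g : ℝ)) ≤
        kappa ((Finset.range n).image (fun j => b + g * j)) := by
      refine le_kappa hne (((k : ℝ) + 1) / g) ?_
      intro v hv
      simp only [Finset.mem_image, Finset.mem_range] at hv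
      obtain ⟨j, _, rfl⟩ := hv
      apply le_distInt
      intro m
      have hgc : (g : ℝ) = a + b := by exact_mod_cast hb
      have hgc2 : (g : ℝ) = 2 * (k + 1) * a + 1 := by rw [hg]; push_cast; ring
      have hval : ((k : ℝ) + 1) / g * ((b + g * j : ℕ) : ℝ) =
          ((((k : ℤ) + 1) * (j + 1) : ℤ) : ℝ) - (1 / 2 - 1 / (2 * (g : ℝ))) := by
        push_cast
        have hb' : (b : ℝ) = g - a := by linarith
        rw [hb']
        field_simp
        linear_combination hgc2
      rw [hval]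
      set M : ℤ := ((k : ℤ) + 1) * (j + 1) - m with hM
      have hrew : ((((k : ℤ) + 1) * (j + 1) : ℤ) : ℝ) - (1 / 2 - 1 / (2 * (g : ℝ))) - m =
          (M : ℝ) - (1 / 2 - 1 / (2 * (g : ℝ))) := by
        rw [hM]; push_cast; ring
      rw [hrew]
      have hg1 : (0 : ℝ) < 1 / (2 * (g : ℝ)) := by positivity
      rcases le_or_gt M 0 with h0 | h0
      · have : (M : ℝ) ≤ 0 := by exact_mod_cast h0
        have h2 : 0 ≤ 1 / 2 - 1 / (2 * (g : ℝ)) := by
          have : (1 : ℝ) ≤ g := by exact_mod_cast hgpos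
          rw [sub_nonneg, div_le_div_iff₀ (by positivity) (by norm_num)]
          linarith
        rw [abs_of_nonpos (by linarith)]
        linarith
      · have : (1 : ℝ) ≤ M := by exact_mod_cast h0
        rw [abs_of_nonneg (by linarith)]
        linarith
    refine lt_of_lt_of_le ?_ hlow
    have : 1 / (2 * (g : ℝ)) < ε := by
      have h1 : (k : ℝ) < g := by
        have : k < g := by rw [hg]; nlinarith
        exact_mod_cast this
      have h2 : 1 / ε < g := lt_trans hk h1
      rw [div_lt_iff₀ hε] at h2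
      rw [div_lt_iff₀ (by positivity)]
      nlinarith
    linarith
  · -- upper bound
    have hpar : (b + (b + g)) % 2 = 1 := by
      have h1 : g = 2 * ((k + 1) * a) + 1 := by rw [hg]; ring
      omega
    have hle : kappa ((Finset.range n).image (fun j => b + g * j)) ≤
        1 / 2 - 1 / (2 * ((b : ℝ) + ((b + g : ℕ) : ℝ))) := by
      apply kappa_le
      intro t
      rcases parity_bound b (b + g) hbpos (by omega) hpar t with h | h
      · exact ⟨b, Finset.mem_image.mpr ⟨0, Finset.mem_range.mpr (by omega), by simp⟩, h⟩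
      · exact ⟨b + g, Finset.mem_image.mpr ⟨1, Finset.mem_range.mpr (by omega), by simp⟩, h⟩
    refine lt_of_le_of_lt hle ?_
    have hbR : (0 : ℝ) < b := by exact_mod_cast hbpos
    have : (0 : ℝ) < 1 / (2 * ((b : ℝ) + ((b + g : ℕ) : ℝ))) := by push_cast; positivity
    linarith
  · -- exact value of the translate
    have htr : translate a ((Finset.range n).image (fun j => b + g * j)) =
        (Finset.range n).image (fun j => g * (j + 1)) := by
      unfold translate
      rw [Finset.image_image]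
      apply Finset.image_congr
      intro j _
      simp only [Function.comp]
      rw [← add_assoc, ← hb]; ring
    rw [htr]
    apply le_antisymm
    · apply kappa_le
      intro t
      obtain ⟨j, q, hq0, hqn, hq⟩ := Real.exists_int_int_abs_mul_sub_le (t * g) (n := n) (by omega)
      obtain ⟨p, rfl⟩ : ∃ p : ℕ, q = p + 1 := ⟨(q - 1).toNat, by omega⟩
      refine ⟨g * (p + 1), Finset.mem_image.mpr ⟨p, Finset.mem_range.mpr (by omega), rfl⟩, ?_⟩
      refine le_trans (distInt_le _ j) ?_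
      have : t * ((g * (p + 1) : ℕ) : ℝ) - j = ((p + 1 : ℤ) : ℝ) * (t * g) - j := by
        push_cast; ring
      rw [this]
      exact hq
    · have hne : ((Finset.range n).image (fun j => g * (j + 1))).Nonempty :=
        ⟨g * (0 + 1), Finset.mem_image.mpr ⟨0, Finset.mem_range.mpr (by omega), rfl⟩⟩
      refine le_kappa hne (1 / (g * ((n : ℝ) + 1))) ?_
      intro v hv
      simp only [Finset.mem_image, Finset.mem_range] at hv
      obtain ⟨j, hj, rfl⟩ := hv
      apply le_distInt
      intro m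
      have hn1 : (0 : ℝ) < (n : ℝ) + 1 := by positivity
      have hval : 1 / (g * ((n : ℝ) + 1)) * ((g * (j + 1) : ℕ) : ℝ) - m =
          (((j : ℤ) + 1 - m * (n + 1) : ℤ) : ℝ) / ((n : ℝ) + 1) := by
        push_cast
        field_simp
      rw [hval, abs_div, abs_of_pos hn1]
      have hnz : (j : ℤ) + 1 - m * (n + 1) ≠ 0 := by
        intro h0
        have h1 : (j : ℤ) + 1 = m * (n + 1) := by linarith
        have hmpos : 0 < m := by
          by_contra hneg
          push Not at hneg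
          nlinarith
        have : (n : ℤ) + 1 ≤ m * (n + 1) := by nlinarith
        omega
      have h1 : (1 : ℤ) ≤ |(j : ℤ) + 1 - m * (n + 1)| := Int.one_le_abs hnz
      have h2 : (1 : ℝ) ≤ |(((j : ℤ) + 1 - m * (n + 1) : ℤ) : ℝ)| := by exact_mod_cast h1
      gcongr

end Pool.Agent.Results.MP_64d5df_nt.TranslateDrop
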